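import Pool.Agent.X296.Gen.Defs
import Pool.Agent.W495.FM.Spread

/-!
# Homology of the generic point: invariant classes
-/

namespace Pool.Agent.X296.Gen

open Pool.Agent.W495.FM

variable {Ω : Type} [Field Ω] [CharZero Ω] {V : Type} {T : Homology Ω V} {X : V} {ι : Type}
  [Preorder ι] {D : Opens T X ι} {d : ℤ}

theorem hom_zero_f {A B : V} {i j i' j' : ℤ} (h : Hom T A i j B i' j') : h.f 0 = 0 := by
  have := h.add 0 0
  simpa using this

theorem hom_zero_g {A B : V} {i j i' j' : ℤ} (h : Hom T A i j B i' j') : h.g 0 = 0 := by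
  obtain ⟨φ, hφ⟩ := h.lin
  rw [hφ, map_zero]

theorem reg_zero (hT : IsHomology T) (A : V) (i j : ℤ) : T.reg A i j 0 = 0 := by
  have := hT.add A i j 0 0
  simpa using this

/-- An element that is invariant in the limit. -/
theorem algebraic_of_onto (hW : HasWeights T) (hD : IsGeneric D d)
    (hO : ∀ k i, IsOnto T (D.U k) i) {k : ι} {n j : ℤ} (hn : n ≤ 2 * j) (e : T.E (D.U k) n j)
    (he : LimitInvariant D e) : LimitAlgebraic D e := by
  obtain ⟨l, h, hl⟩ := he
  have h1 : T.frob _ _ _ ((D.res h n j).g e) = (D.res h n j).g e := by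
    rw [(D.res h n j).frob, hl]
  rcases hn.lt_or_eq with hlt | rfl
  · refine ⟨l, h, ?_⟩
    rw [hW.weights _ _ _ hlt _ h1]
    exact Submodule.zero_mem _
  · exact ⟨l, h, (hO l j).1 _ h1⟩

/-- A combination of classes of cycles of dimension less than `d` is zero in the limit. -/
theorem zero_of_algebraic (hT : IsHomology T) (hD : IsGeneric D d) {l : ι} {j : ℤ} (hj : j < d)
    (e : T.E (D.U l) (2 * j) j) (he : e ∈ Submodule.span Ω (Set.range (T.reg (D.U l) (2 * j) j))) :
    LimitZero D e := by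
  induction he using Submodule.span_induction with
  | mem e he =>
    obtain ⟨x, rfl⟩ := he
    obtain ⟨m, h, hm⟩ := hD.support l j hj x
    refine ⟨m, h, ?_⟩
    rw [← (D.res h (2 * j) j).reg, hm, reg_zero hT]
  | zero => exact ⟨l, le_rfl, hom_zero_g _⟩
  | add x y _ _ hx hy =>
    obtain ⟨m, h, hm⟩ := hx
    obtain ⟨m', h', hm'⟩ := hy
    obtain ⟨r, hr, hr'⟩ := hD.directed m m'
    refine ⟨r, h.trans hr, ?_⟩
    obtain ⟨φ, hφ⟩ := (D.res (h.trans hr) (2 * j) j).lin
    rw [hφ, map_add, ← hφ, ← hφ, ← hD.comp_g h hr, hm, hom_zero_g, zero_add,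
      ← hD.comp_g h' hr', hm', hom_zero_g]
  | smul c x _ hx =>
    obtain ⟨m, h, hm⟩ := hx
    refine ⟨m, h, ?_⟩
    obtain ⟨φ, hφ⟩ := (D.res h (2 * j) j).lin
    rw [hφ, map_smul, ← hφ, hm, smul_zero]

/-- The invariant elements of the limit are zero, for cycles of dimension less than `d`. -/
theorem zero_of_onto (hT : IsHomology T) (hW : HasWeights T) (hD : IsGeneric D d)
    (hO : ∀ k i, IsOnto T (D.U k) i) {k : ι} {n j : ℤ} (hn : n ≤ 2 * j) (hj : n < 2 * j ∨ j < d)
    (e : T.E (D.U k) n j) (he : LimitInvariant D e) : LimitZero D e := by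
  rcases hn.lt_or_eq with hlt | rfl
  · obtain ⟨l, h, hl⟩ := he
    have h1 : T.frob _ _ _ ((D.res h n j).g e) = (D.res h n j).g e := by
      rw [(D.res h n j).frob, hl]
    exact ⟨l, h, hW.weights _ _ _ hlt _ h1⟩
  · have hjd : j < d := hj.resolve_left (lt_irrefl _)
    obtain ⟨l, h, hl⟩ := algebraic_of_onto hW hD hO le_rfl e he
    obtain ⟨m, h', hm⟩ := zero_of_algebraic hT hD hjd _ hl
    exact ⟨m, h.trans h', by rw [← hD.comp_g h h', hm]⟩

/-- All open subschemes of a member of the class. -/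
theorem onto_opens (hT : IsHomology T) (hW : HasWeights T) {S : V → Prop}
    (hS : ∀ X, S X → ∀ i, IsOnto T X i) (hX : Spread T S X) (hD : IsGeneric D d) (k : ι) (i : ℤ) :
    IsOnto T (D.U k) i :=
  onto_opened hT hW (hD.triple k) (onto_spread hT hW hS hX i)

end Pool.Agent.X296.Gen
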