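import Pool.Agent.W495.FM.SpreadDefs

/-!
# Homology of the generic point: definitions
-/

namespace Pool.Agent.X296.Gen

open Pool.Agent.W495.FM

variable {Ω : Type} [Field Ω] {V : Type}

/-- A family of open subschemes `U k` of `X`, with closed complements `Z k`, indexed by `ι`; the
index `l` is at least `k` only if `U l` is contained in `U k`, and then there are the restriction
homomorphisms `res` from the homology groups of `U k` to those of `U l`. -/
structure Opens (T : Homology Ω V) (X : V) (ι : Type) [Preorder ι] where
  U : ι → V
  Z : ι → V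
  res : ∀ {k l : ι}, k ≤ l → ∀ n j : ℤ, Hom T (U k) n j (U l) n j

/-- `D` is a system of dense open subschemes of `X`, irreducible of dimension `d`, such that the
direct limit over it is the limit over all dense open subschemes: the localisation sequences for
the complements, compatible restriction homomorphisms, and, for each `k` and each cycle on `U k` of
dimension less than `d`, a smaller `U l` which is disjoint from the support of the cycle. -/
structure IsGeneric {T : Homology Ω V} {X : V} {ι : Type} [Preorder ι] (D : Opens T X ι) (d : ℤ) :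
    Prop where
  triple : ∀ k, IsTriple T (D.Z k) X (D.U k)
  directed : ∀ k l : ι, ∃ m, k ≤ m ∧ l ≤ m
  comp_f : ∀ {k l m : ι} (h : k ≤ l) (h' : l ≤ m) (n j : ℤ) (x : T.M (D.U k) n j),
    (D.res h' n j).f ((D.res h n j).f x) = (D.res (h.trans h') n j).f x
  comp_g : ∀ {k l m : ι} (h : k ≤ l) (h' : l ≤ m) (n j : ℤ) (e : T.E (D.U k) n j),
    (D.res h' n j).g ((D.res h n j).g e) = (D.res (h.trans h') n j).g e
  support : ∀ (k : ι) (j : ℤ), j < d → ∀ x : T.M (D.U k) (2 * j) j,
    ∃ (l : ι) (h : k ≤ l), (D.res h (2 * j) j).f x = 0

/-- The element of the direct limit of the groups `E (U k) n j` given by `e` is invariant under the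
Frobenius. -/
def LimitInvariant {T : Homology Ω V} {X : V} {ι : Type} [Preorder ι] (D : Opens T X ι) {k : ι}
    {n j : ℤ} (e : T.E (D.U k) n j) : Prop :=
  ∃ (l : ι) (h : k ≤ l), (D.res h n j).g (T.frob _ _ _ e) = (D.res h n j).g e

/-- The element of the direct limit of the groups `E (U k) n j` given by `e` belongs to the span of
the image of the direct limit of the groups `M (U k) n j`. -/
def LimitAlgebraic {T : Homology Ω V} {X : V} {ι : Type} [Preorder ι] (D : Opens T X ι) {k : ι}
    {n j : ℤ} (e : T.E (D.U k) n j) : Prop :=
  ∃ (l : ι) (h : k ≤ l), (D.res h n j).g e ∈ Submodule.span Ω (Set.range (T.reg (D.U l) n j))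

/-- The element of the direct limit of the groups `E (U k) n j` given by `e` is zero. -/
def LimitZero {T : Homology Ω V} {X : V} {ι : Type} [Preorder ι] (D : Opens T X ι) {k : ι}
    {n j : ℤ} (e : T.E (D.U k) n j) : Prop :=
  ∃ (l : ι) (h : k ≤ l), (D.res h n j).g e = 0

end Pool.Agent.X296.Gen
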